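import Mathlib

set_option autoImplicit false

namespace Pool.Agent.Results.MP_332034_al.NoSuchLattice

universe u v w

/-- `L` embeds into the lattice of subspaces of `V`: there is an injective map
preserving binary meets and joins. -/
def EmbedsIntoSub (L : Type u) [Lattice L] (D : Type v) [DivisionRing D] (V : Type w)
    [AddCommGroup V] [Module D V] : Prop :=
  ∃ f : L → Submodule D V, Function.Injective f ∧
    (∀ a b, f (a ⊓ b) = f a ⊓ f b) ∧ (∀ a b, f (a ⊔ b) = f a ⊔ f b)

/-- Every lattice that embeds into the lattice of subspaces of a left vector space over a
division ring also embeds into the lattice of subspaces of a vector space over a field. -/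
theorem result (L : Type u) [Lattice L] (D : Type v) [DivisionRing D] (V : Type w)
    [AddCommGroup V] [Module D V] (h : EmbedsIntoSub L D V) :
    ∃ (F : Type v) (_ : Field F) (W : Type w) (_ : AddCommGroup W) (_ : Module F W),
      EmbedsIntoSub L F W := by
  obtain ⟨f, hf, hm, hj⟩ := h
  refine ⟨Subring.center D, inferInstance, V, inferInstance, inferInstance,
    fun a => (f a).restrictScalars (Subring.center D), ?_, ?_, ?_⟩
  · intro a b hab
    exact hf (Submodule.restrictScalars_injective _ _ _ hab)
  · intro a b
    show (f (a ⊓ b)).restrictScalars (Subring.center D) = _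
    rw [hm]
    ext x
    simp
  · intro a b
    show (f (a ⊔ b)).restrictScalars (Subring.center D) = _
    rw [hj]
    ext x
    simp only [Submodule.restrictScalars_mem, Submodule.mem_sup]

end Pool.Agent.Results.MP_332034_al.NoSuchLattice
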